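import Pool.Agent.Run7.h178.SL.Fin3

/-!
# After slides of the 2-cells all subcomplexes of a finite acyclic aspherical 2-complex have torsion-free
# fundamental groups

Definitions (`Pool.Agent.R655.LI.Defs`, `.Asph` of the starting library, `Run7.h178.SL.Stm`, `.Main2`,
`.Cor`, `.Fin3`):

* `Cx`: a 2-complex with one vertex, 1-cells `V`, 2-cells `R`, attaching words `r : R → FreeGroup V`;
  `K.Pi` its fundamental group; `Sub K L`: `K` is (identified with) a subcomplex of `L`, with the
  injection `s.c` of the 2-cells;
* `Acyclic L`: finitely many cells, as many 2-cells as 1-cells, and `H₁(L) = 0` (the exponent sum vectors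
  of the attaching words generate `ℤ ^ V`);
* `TorsFree G`: only `1` has finite order; the fundamental group of an aspherical 2-complex has this
  property;
* `Asph K`: the boundary operator `C₂ → C₁` of the universal covering of `K` is injective, i.e.
  `π₂(K) = 0`;
* `FreeByInt G`: some homomorphism `G → ℤ` has a free kernel;
* `QEq r r'`: the family `r'` of words is obtained from `r` by finitely many slides `QStep`: a word `r j` is
  multiplied by another word `r k` of the family, or inverted, or conjugated. (So the 2-complex of `r'` is
  obtained from the 2-complex of `r` by a 3-deformation which does not change the 1-skeleton.)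

Proof: see `Pool.Agent.Results.MP_cf50d6_gt.AfterSlides`; locally indicable groups are torsion-free, and
Howie's theorem is used for subcomplexes of acyclic 2-complexes (`Run7.h178.SL.Acyc`).
-/

set_option autoImplicit false

namespace Pool.Agent.Results.MP_488119_gt.AfterSlides

open Pool.Agent.R655.LI Run7.h178.SL Function

/-- Let `L` be a finite acyclic 2-complex with one vertex and a torsion-free fundamental group (for
example a finite acyclic aspherical one). By finitely many slides of its 2-cells, which do not change
the fundamental group, it becomes a 2-complex `L'` such that the fundamental groups of all subcomplexes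
of `L'` are torsion-free, and the subcomplexes which do not contain all the 2-cells are aspherical,
with a fundamental group which has a homomorphism to `ℤ` with a free kernel. -/
theorem result (L : Cx) [DecidableEq L.R] (hL : Acyclic L) (ht : TorsFree L.Pi) :
    ∃ r' : L.R → FreeGroup L.V, QEq L.r r' ∧
      Subgroup.normalClosure (Set.range r') = Subgroup.normalClosure (Set.range L.r) ∧
      ∀ (K : Cx) (s : Sub K (Cx.mk L.V L.R r')), TorsFree K.Pi ∧
        (¬ Surjective s.c → FreeByInt K.Pi ∧ Asph K) :=
  torsion L hL ht

end Pool.Agent.Results.MP_488119_gt.AfterSlides
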